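import Pool.Agent.helper52.WP.SpecB

/-!
# Project wp: (MP_af9036_an), module HFI (helper46): first facts on the differential
-/

set_option autoImplicit false

open Complex Metric Set Filter Topology MeasureTheory
open V3S (UF)
open WP
open PPS (pre TT fd)
open XPS (Df er)

noncomputable section

namespace WPB

theorem HFI_int (hMI : MPS.MI_stmt) (c q : ℂ) (R : ℝ) :
    IntegrableOn (fun z : ℂ => c / (z - q)) (ball (0 : ℂ) R) := by
  have hs : ball (0 : ℂ) R ⊆ ball q (|R| + ‖q‖) := by
    refine ball_subset_ball' ?_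
    rw [dist_eq_norm, zero_sub, norm_neg]
    linarith [le_abs_self R]
  have h1 := (hMI.2 q (|R| + ‖q‖) (by positivity)).1.mono_set hs
  have h2 : IntegrableOn (fun z : ℂ => ‖c‖ * (1 / ‖z - q‖)) (ball (0 : ℂ) R) := h1.const_mul _
  have hm : Measurable (fun z : ℂ => c / (z - q)) := (measurable_id.sub_const q).const_div c
  refine Integrable.mono' h2 hm.aestronglyMeasurable ?_
  refine Filter.Eventually.of_forall fun z => ?_
  rw [norm_div]
  exact le_of_eq (by ring)

theorem HFI (hCB1 : WPC.CB1_stmt) (hMI : MPS.MI_stmt) : HFI_stmt := by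
  intro D hρ
  obtain ⟨hsg, -, -, hzx, -, -, -, -, hder, hzF, -, -, -, -, -, -⟩ := hCB1 D hρ
  have hpz : ∀ (i : Fin 3) (j : ℕ), D.zz (D.p i j) = it D.f j (D.zz (D.a i)) := fun i j =>
    hzF j (D.a i)
  have hform : ∀ z, D.H0 z = (1 / D.sg) * ∑ i : Fin 3, D.γ i * ∑ j ∈ Finset.range D.k,
      1 / deriv (it D.f j) (D.zz (D.a i)) / (z - it D.f j (D.zz (D.a i))) := by
    intro z
    have h1 : ∀ (i : Fin 3) (j : ℕ), D.g i j / (D.xx z - D.p i j) / D.sg ^ 2 =
        (1 / D.sg) * (D.γ i * (1 / deriv (it D.f j) (D.zz (D.a i)) /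
          (z - it D.f j (D.zz (D.a i))))) := by
      intro i j
      have h2 : D.xx z - D.p i j = (z - it D.f j (D.zz (D.a i))) / D.sg := by
        rw [← hpz i j]
        unfold Dat.xx Dat.zz
        field_simp
        ring
      rw [h2]
      unfold Dat.g
      rw [hder j (D.a i), div_div_eq_mul_div]
      rcases eq_or_ne (z - it D.f j (D.zz (D.a i))) 0 with h3 | h3
      · rw [h3]
        simp
      · rcases eq_or_ne (deriv (it D.f j) (D.zz (D.a i))) 0 with h4 | h4
        · rw [h4]
          simp
        · field_simp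
    unfold Dat.H0 Dat.B0
    rw [Finset.sum_div, Finset.mul_sum]
    refine Finset.sum_congr rfl fun i _ => ?_
    rw [Finset.sum_div, Finset.mul_sum, Finset.mul_sum]
    refine Finset.sum_congr rfl fun j _ => ?_
    exact h1 i j
  have hfun : D.H0 = fun z => (1 / D.sg) * ∑ i : Fin 3, D.γ i * ∑ j ∈ Finset.range D.k,
      1 / deriv (it D.f j) (D.zz (D.a i)) / (z - it D.f j (D.zz (D.a i))) := funext hform
  have hint : ∀ R : ℝ, IntegrableOn D.H0 (ball (0 : ℂ) R) := by
    intro R
    rw [hfun]
    refine Integrable.const_mul (integrable_finset_sum _ fun i _ => ?_) _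
    refine Integrable.const_mul (integrable_finset_sum _ fun j _ => ?_) _
    exact HFI_int hMI _ _ R
  have hfin : D.PP.Finite := by
    refine Set.Finite.subset (((Finset.univ : Finset (Fin 3)) ×ˢ (Finset.range D.k)).image
      (fun q : Fin 3 × ℕ => D.zz (D.p q.1 q.2))).finite_toSet ?_
    rintro z ⟨i, j, hj, rfl⟩
    simp only [Finset.coe_image, Set.mem_image, Finset.mem_coe, Finset.mem_product,
      Finset.mem_univ, Finset.mem_range, true_and, Prod.exists]
    exact ⟨i, j, hj, rfl⟩
  refine ⟨hform, ?_, ?_, hfin, ?_⟩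
  · rw [hfun]
    refine Measurable.const_mul (Finset.measurable_sum _ fun i _ => ?_) _
    refine Measurable.const_mul (Finset.measurable_sum _ fun j _ => ?_) _
    exact (measurable_id.sub_const _).const_div _
  · intro R
    have h1 := (hint R).2
    have h2 : ∀ z, ENNReal.ofReal ‖D.H0 z‖ = ‖D.H0 z‖ₑ := fun z => ofReal_norm_eq_enorm _
    simp only [h2]
    exact ne_of_lt h1
  · intro z hz
    rw [hfun]
    refine DifferentiableAt.differentiableWithinAt ?_
    refine DifferentiableAt.const_mul (DifferentiableAt.fun_sum fun i _ => ?_) _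
    refine DifferentiableAt.const_mul (DifferentiableAt.fun_sum fun j hj => ?_) _
    have hne : z - it D.f j (D.zz (D.a i)) ≠ 0 := by
      intro h0
      apply hz
      refine ⟨i, j, Finset.mem_range.mp hj, ?_⟩
      rw [hpz i j]
      exact sub_eq_zero.mp h0
    exact (differentiableAt_const _).div (differentiableAt_id.sub_const _) hne

end WPB
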